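import Pool.Agent.H641.PCF.Moduli
import Pool.Agent.H641.PCF.P_countable_reps
import Pool.Agent.H641.PCF.P_family_const
import Pool.Agent.H641.PCF.P_common_point

set_option autoImplicit false

open MvPolynomial PCFib

namespace Pool.Agent.Results.MP_6903ed_ag.NoPCFCurves

lemma mk_eq_iff {N d : ℕ} (f f' : PMap N ℂ) (hf : IsRegularEndo d f) (hf' : IsRegularEndo d f') :
    RSpace.mk f hf = RSpace.mk f' hf' ↔ AffConj f f' :=
  ⟨fun h => Quotient.exact h, fun h => Quotient.sound h⟩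

lemma atInfinity_mk_iff {N d : ℕ} (hd : 2 ≤ d) (f : PMap N ℂ) (hf : IsRegularEndo d f)
    (g : ProjEndo N d) :
    atInfinity hd (RSpace.mk f hf) = Quotient.mk (projSetoid N d) g ↔
      ProjConj (topPart d f) g.1 :=
  ⟨fun h => Quotient.exact h, fun h => Quotient.sound h⟩

theorem countable_fibre {N d : ℕ} (hd : 2 ≤ d) (m : MSpace N d) :
    {x : RSpace N d | x ∈ PCFLocus N d ∧ atInfinity hd x = m}.Countable := by
  obtain ⟨g, rfl⟩ := Quotient.exists_rep m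
  obtain ⟨T, hT, hrep⟩ := countable_reps hd g.1 g.2
  refine Set.Countable.mono ?_ (hT.biUnion (t := fun e _ =>
    {x : RSpace N d | ∃ (f : PMap N ℂ) (hf : IsRegularEndo d f),
      RSpace.mk f hf = x ∧ AffConj f e}) ?_)
  · rintro x ⟨⟨f, hf, hp, rfl⟩, hx⟩
    obtain ⟨e, he, hc⟩ := hrep f hf hp ((atInfinity_mk_iff hd f hf g).1 hx)
    exact Set.mem_biUnion he ⟨f, hf, rfl, hc⟩
  · intro e _
    apply Set.Subsingleton.countable
    rintro x ⟨f, hf, rfl, hc⟩ y ⟨f', hf', rfl, hc'⟩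
    exact (mk_eq_iff f f' hf hf').2 (affConj_trans _ _ _ hc (affConj_symm _ _ hc'))

theorem constant {N d : ℕ} (hd : 2 ≤ d) (B : Type) [CommRing B] [IsDomain B] [Algebra ℂ B]
    [Algebra.FiniteType ℂ B] (φ : (B →ₐ[ℂ] ℂ) → RSpace N d) (hφ : IsAlgebraicMap B φ)
    (hpcf : ∀ c, φ c ∈ PCFLocus N d) (hπ : ∀ c c', atInfinity hd (φ c) = atInfinity hd (φ c'))
    (c₁ c₂ : B →ₐ[ℂ] ℂ) : φ c₁ = φ c₂ := by
  obtain ⟨g, hg⟩ := Quotient.exists_rep (atInfinity hd (φ c₁))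
  have key : ∀ (B' : Type) [CommRing B'] [IsDomain B'] [Algebra ℂ B'] [Algebra.FiniteType ℂ B']
      (ψ : B →ₐ[ℂ] B') (f : PMap N B')
      (hf : ∀ c' : B' →ₐ[ℂ] ℂ, IsRegularEndo d (mapc (c' : B' →+* ℂ) f)),
      (∀ c' : B' →ₐ[ℂ] ℂ, φ (c'.comp ψ) = RSpace.mk (mapc (c' : B' →+* ℂ) f) (hf c')) →
      ∀ c c' : B' →ₐ[ℂ] ℂ, φ (c.comp ψ) = φ (c'.comp ψ) := by
    intro B' _ _ _ _ ψ f hf hlift c c'
    rw [hlift c, hlift c', mk_eq_iff]
    refine family_const hd B' f hf g.1 g.2 ?_ ?_ c c'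
    · intro c'
      rw [← atInfinity_mk_iff hd _ (hf c') g, ← hlift c', hg]
      exact hπ _ _
    · intro c'
      obtain ⟨f', hf', hp, he⟩ := hpcf (c'.comp ψ)
      rw [hlift c', mk_eq_iff] at he
      exact ⟨f', hf', hp, he⟩
  obtain ⟨B₁, _, _, _, _, ψ₁, f₁, hf₁, hi₁, ⟨a₁, ha₁⟩, hl₁⟩ := hφ c₁
  obtain ⟨B₂, _, _, _, _, ψ₂, f₂, hf₂, hi₂, ⟨a₂, ha₂⟩, hl₂⟩ := hφ c₂
  obtain ⟨b₁, b₂, hb⟩ := common_point B B₁ B₂ ψ₁ ψ₂ hi₁ hi₂
  calc φ c₁ = φ (a₁.comp ψ₁) := by rw [ha₁]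
    _ = φ (b₁.comp ψ₁) := key B₁ ψ₁ f₁ hf₁ hl₁ _ _
    _ = φ (b₂.comp ψ₂) := by rw [hb]
    _ = φ (a₂.comp ψ₂) := key B₂ ψ₂ f₂ hf₂ hl₂ _ _
    _ = φ c₂ := by rw [ha₂]

/-- No fibre of `π : R_d^N → M_d^{N-1}` contains a curve of PCF maps: every algebraic map from an
irreducible variety to `R_d^N` with image in the PCF locus and with constant restriction to the
hyperplane at infinity is constant. Moreover, every fibre of `π` contains only countably many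
classes of PCF maps. -/
theorem result : ∀ (N d : ℕ) (hd : 2 ≤ d),
    (∀ (B : Type) [CommRing B] [IsDomain B] [Algebra ℂ B] [Algebra.FiniteType ℂ B]
      (φ : (B →ₐ[ℂ] ℂ) → RSpace N d), IsAlgebraicMap B φ → (∀ c, φ c ∈ PCFLocus N d) →
      (∀ c c', atInfinity hd (φ c) = atInfinity hd (φ c')) → ∀ c c', φ c = φ c') ∧
    (∀ m : MSpace N d, {x : RSpace N d | x ∈ PCFLocus N d ∧ atInfinity hd x = m}.Countable) := by
  intro N d hd
  exact ⟨fun B _ _ _ _ φ h1 h2 h3 c c' => constant hd B φ h1 h2 h3 c c',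
    fun m => countable_fibre hd m⟩

end Pool.Agent.Results.MP_6903ed_ag.NoPCFCurves
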